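import Pool.Agent.Q7.CF.Stm

/-!
# Project CF (helper7), job BSC: the basis, the retraction, the two points
-/

set_option autoImplicit false
set_option linter.unusedSectionVars false

namespace Pool.Agent.Q182.CF

open Polynomial Pool.Agent.Q7.CF

/-! ## A point of an algebra -/

lemma point {L A : Type} [Field L] [CommRing A] [Algebra L A] (t : Ideal A) (ht : t ≠ ⊤)
    (h : ∀ z : A, ∃ c : L, z - algebraMap L A c ∈ t) :
    ∃ e : A →ₐ[L] L, RingHom.ker e = t ∧ ∀ (z : A) (c : L), z - algebraMap L A c ∈ t → e z = c := by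
  have hnt : Nontrivial (A ⧸ t) := Ideal.Quotient.nontrivial_iff.2 ht
  have hbij : Function.Bijective (algebraMap L (A ⧸ t)) := by
    refine ⟨(algebraMap L (A ⧸ t)).injective, fun y => ?_⟩
    obtain ⟨z, rfl⟩ := Ideal.Quotient.mk_surjective y
    obtain ⟨c, hc⟩ := h z
    exact ⟨c, ((Ideal.Quotient.mk_eq_mk_iff_sub_mem _ _).2 hc).symm⟩
  obtain ⟨ψ, hψ⟩ : ∃ ψ : L ≃ₐ[L] (A ⧸ t), ∀ c, ψ c = algebraMap L (A ⧸ t) c :=
    ⟨AlgEquiv.ofBijective (Algebra.ofId L (A ⧸ t)) hbij, fun c => rfl⟩
  refine ⟨(ψ.symm : (A ⧸ t) →ₐ[L] L).comp (Ideal.Quotient.mkₐ L t), ?_, ?_⟩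
  · ext z
    rw [RingHom.mem_ker]
    change ψ.symm (Ideal.Quotient.mk t z) = 0 ↔ _
    rw [map_eq_zero_iff _ ψ.symm.injective, Ideal.Quotient.eq_zero_iff_mem]
  · intro z c hc
    change ψ.symm (Ideal.Quotient.mk t z) = c
    rw [AlgEquiv.symm_apply_eq, hψ]
    exact (Ideal.Quotient.mk_eq_mk_iff_sub_mem _ _).2 hc

section

variable (p r : ℕ) [hp : Fact p.Prime] [ho : Ok p r] {L : Type} [Field L] (D : L)

/-! ## The monomials -/

omit hp ho in
lemma YF_pow : YF p D ^ p = algebraMap L (RF p D) D - XF p D ^ p := by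
  rw [← fermat_eq p D]
  ring

omit hp ho in
lemma mon_red (a b : ℕ) (h : b ≡ r * a [MOD p]) :
    XF p D ^ a * YF p D ^ b =
      (XF p D ^ (a % p) * YF p D ^ (r * (a % p) % p)) * (XF p D ^ p) ^ (a / p) * (YF p D ^ p) ^ (b / p) := by
  have h1 : r * (a % p) % p = b % p := by
    have h2 : r * (a % p) ≡ r * a [MOD p] := Nat.ModEq.mul_left r (Nat.mod_modEq a p)
    exact h2.trans h.symm
  have ha : a % p + p * (a / p) = a := Nat.mod_add_div a p
  have hb : b % p + p * (b / p) = b := Nat.mod_add_div b p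
  rw [h1]
  conv_lhs => rw [← ha, ← hb]
  rw [pow_add, pow_add, pow_mul, pow_mul]
  ring

/-- the functions `v_i` -/
noncomputable def vi (i : ℕ) : BQ p r D := ⟨XF p D ^ i * YF p D ^ (r * i % p), mons_mem p r D (Nat.mod_modEq _ _)⟩

omit ho in
lemma partA (a b : ℕ) (h : b ≡ r * a [MOD p]) : (⟨XF p D ^ a * YF p D ^ b, mons_mem p r D h⟩ : BQ p r D) =
    vi p r D (a % p) * uu p r D ^ (a / p) * ww p r D ^ (b / p) := by
  refine Subtype.ext ?_
  exact mon_red p r D a b h

omit hp ho in
lemma mons_one : (1 : RF p D) ∈ mons p r D := ⟨0, 0, by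
  change 0 % p = (r * 0) % p
  rw [mul_zero], by rw [pow_zero, pow_zero, mul_one]⟩

omit hp ho in
lemma mons_mul {x y : RF p D} (hx : x ∈ mons p r D) (hy : y ∈ mons p r D) : x * y ∈ mons p r D := by
  obtain ⟨a, b, hab, rfl⟩ := hx
  obtain ⟨a', b', hab', rfl⟩ := hy
  refine ⟨a + a', b + b', ?_, ?_⟩
  · rw [mul_add]
    exact Nat.ModEq.add hab hab'
  · rw [pow_add, pow_add]
    ring

omit hp ho in
lemma mem_span (z : RF p D) (hz : z ∈ BQ p r D) : z ∈ Submodule.span L (mons p r D) := by
  have h1 : Subalgebra.toSubmodule (Algebra.adjoin L (mons p r D)) = Submodule.span L (mons p r D) := by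
    apply Algebra.adjoin_eq_span_of_subset
    intro x hx
    apply Submodule.subset_span
    change x ∈ Submonoid.closure (mons p r D) at hx
    induction hx using Submonoid.closure_induction with
    | mem x hx => exact hx
    | one => exact mons_one p r D
    | mul x y _ _ hx hy => exact mons_mul p r D hx hy
  rw [← h1]
  exact hz

/-! ## The basis -/

/-- the combinations of the `v_i` -/
noncomputable def Phi : (Fin p → L[X]) →ₗ[L] BQ p r D where
  toFun f := ∑ i : Fin p, aeval (uu p r D) (f i) * vi p r D i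
  map_add' f g := by
    rw [← Finset.sum_add_distrib]
    refine Finset.sum_congr rfl fun i _ => ?_
    rw [Pi.add_apply, map_add, add_mul]
  map_smul' c f := by
    rw [RingHom.id_apply, Finset.smul_sum]
    refine Finset.sum_congr rfl fun i _ => ?_
    rw [Pi.smul_apply, map_smul, smul_mul_assoc]

omit hp ho in
lemma Phi_apply (f : Fin p → L[X]) : Phi p r D f = ∑ i : Fin p, aeval (uu p r D) (f i) * vi p r D i := rfl

omit ho in
lemma Phi_surj (z : BQ p r D) : ∃ f, Phi p r D f = z := by
  have h : ∀ x ∈ Submodule.span L (mons p r D), ∃ f, ((Phi p r D f : BQ p r D) : RF p D) = x := by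
    intro x hx
    induction hx using Submodule.span_induction with
    | mem x hx =>
      obtain ⟨a, b, hab, rfl⟩ := hx
      have hlt : a % p < p := Nat.mod_lt _ hp.out.pos
      refine ⟨Pi.single ⟨a % p, hlt⟩ (X ^ (a / p) * (C D - X) ^ (b / p)), ?_⟩
      have h1 := partA p r D a b hab
      have h2 : (XF p D ^ a * YF p D ^ b : RF p D) = ((vi p r D (a % p) * uu p r D ^ (a / p) * ww p r D ^ (b / p) :
          BQ p r D) : RF p D) := congrArg Subtype.val h1
      rw [h2]
      congr 1
      rw [Phi_apply, Finset.sum_eq_single (⟨a % p, hlt⟩ : Fin p)]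
      · rw [Pi.single_eq_same, map_mul, map_pow, map_pow, map_sub, aeval_X, aeval_C]
        have h3 : ww p r D = algebraMap L (BQ p r D) D - uu p r D := by
          rw [← uu_add_ww p r D]
          ring
        rw [h3]
        ring
      · intro j _ hj
        rw [Pi.single_eq_of_ne hj, map_zero, zero_mul]
      · intro hc
        exact absurd (Finset.mem_univ _) hc
    | zero => exact ⟨0, by rw [map_zero]; rfl⟩
    | add x y _ _ hx hy =>
      obtain ⟨f, hf⟩ := hx
      obtain ⟨g, hg⟩ := hy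
      refine ⟨f + g, ?_⟩
      rw [map_add, ← hf, ← hg]
      rfl
    | smul c x _ hx =>
      obtain ⟨f, hf⟩ := hx
      refine ⟨c • f, ?_⟩
      rw [map_smul, ← hf]
      rfl
  obtain ⟨f, hf⟩ := h z.1 (mem_span p r D z.1 z.2)
  exact ⟨f, Subtype.ext hf⟩

lemma coprime_r : Nat.Coprime r p := by
  rw [Nat.coprime_comm]
  refine (Nat.Prime.coprime_iff_not_dvd hp.out).2 fun h => ?_
  have h1 := Nat.le_of_dvd ho.h1 h
  have h2 := ho.h2
  omega

lemma inj_mod {i j : ℕ} (hi : i < p) (hj : j < p) (h : r * i % p = r * j % p) : i = j := by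
  have h1 : i ≡ j [MOD p] := Nat.ModEq.cancel_left_of_coprime ((Nat.coprime_comm.1 (coprime_r p r))) h
  exact Nat.ModEq.eq_of_lt_of_lt h1 hi hj

omit hp ho in
lemma aeval_uu (f : L[X]) : ((aeval (uu p r D) f : BQ p r D) : RF p D) = AdjoinRoot.of (fF p D) (expand L p f) := by
  have h1 : ((aeval (uu p r D) f : BQ p r D) : RF p D) = aeval (XF p D ^ p) f :=
    (Polynomial.aeval_algHom_apply (BQ p r D).val (uu p r D) f).symm
  rw [h1]
  induction f using Polynomial.induction_on' with
  | add f g hf hg => 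
    rw [map_add, map_add, map_add]
    have hf' := hf ((Polynomial.aeval_algHom_apply (BQ p r D).val (uu p r D) f).symm)
    have hg' := hg ((Polynomial.aeval_algHom_apply (BQ p r D).val (uu p r D) g).symm)
    rw [hf', hg']
  | monomial n c =>
    rw [aeval_monomial, expand_monomial, ← C_mul_X_pow_eq_monomial, map_mul, map_pow]
    have h2 : algebraMap L (RF p D) c = AdjoinRoot.of (fF p D) (C c) := rfl
    rw [h2, ← pow_mul, mul_comm p n]
    rfl

lemma Phi_inj (f : Fin p → L[X]) (h : Phi p r D f = 0) : f = 0 := by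
  have h1 : AdjoinRoot.mk (fF p D) (∑ i : Fin p, C (expand L p (f i) * X ^ (i : ℕ)) * X ^ (r * (i : ℕ) % p)) = 0 := by
    have h2 := congrArg (BQ p r D).val h
    rw [map_zero, Phi_apply, map_sum] at h2
    rw [map_sum, ← h2]
    refine Finset.sum_congr rfl fun i _ => ?_
    rw [map_mul (AdjoinRoot.mk (fF p D)), map_pow (AdjoinRoot.mk (fF p D)), AdjoinRoot.mk_X, AdjoinRoot.mk_C,
      map_mul (AdjoinRoot.of (fF p D)), map_pow (AdjoinRoot.of (fF p D)), map_mul (BQ p r D).val]
    have h3 : (BQ p r D).val (aeval (uu p r D) (f i)) = AdjoinRoot.of (fF p D) (expand L p (f i)) := aeval_uu p r D (f i)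
    rw [h3]
    change _ = _ * (XF p D ^ (i : ℕ) * YF p D ^ (r * (i : ℕ) % p))
    rw [mul_assoc]
    rfl
  rw [AdjoinRoot.mk_eq_zero] at h1
  have hdeg : (∑ i : Fin p, C (expand L p (f i) * X ^ (i : ℕ)) * X ^ (r * (i : ℕ) % p) : L[X][X]).degree < (fF p D).degree := by
    rw [degree_eq_natDegree (fF_monic p D).ne_zero, fF_natDegree]
    refine (degree_sum_le _ _).trans_lt ?_
    rw [Finset.sup_lt_iff (by exact WithBot.bot_lt_coe _)]
    intro i _
    refine (degree_C_mul_X_pow_le _ _).trans_lt ?_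
    exact_mod_cast Nat.mod_lt _ hp.out.pos
  have h0 : (∑ i : Fin p, C (expand L p (f i) * X ^ (i : ℕ)) * X ^ (r * (i : ℕ) % p) : L[X][X]) = 0 := by
    by_contra hne
    exact (fF_monic p D).not_dvd_of_degree_lt hne hdeg h1
  funext j
  have h4 := congrArg (fun q => coeff q (r * (j : ℕ) % p)) h0
  simp only [finsetSum_coeff, coeff_C_mul, coeff_X_pow, coeff_zero] at h4
  rw [Finset.sum_eq_single j] at h4
  · rw [if_pos rfl, mul_one] at h4
    rcases mul_eq_zero.1 h4 with h5 | h5
    · rw [expand_eq_zero hp.out.pos] at h5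
      exact h5
    · exact absurd h5 (pow_ne_zero _ X_ne_zero)
  · intro i _ hi
    rw [if_neg, mul_zero]
    intro h6
    exact hi (Fin.ext (inj_mod p r i.2 j.2 h6.symm))
  · intro hc
    exact absurd (Finset.mem_univ _) hc

lemma partB (z : BQ p r D) : ∃! f : Fin p → L[X], z = ∑ i : Fin p, aeval (uu p r D) (f i) * vi p r D i := by
  obtain ⟨f, hf⟩ := Phi_surj p r D z
  refine ⟨f, hf.symm, fun g hg => ?_⟩
  have h1 : Phi p r D (g - f) = 0 := by
    rw [map_sub, hf, sub_eq_zero]
    exact hg.symm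
  exact sub_eq_zero.1 (Phi_inj p r D _ h1)

/-! ## The retraction -/

/-- the coaction of the characters of the group of order `p` -/
noncomputable def dl : RF p D →+* AddMonoidAlgebra (RF p D) (ZMod p) :=
  AdjoinRoot.lift (eval₂RingHom ((AddMonoidAlgebra.singleZeroRingHom (R := RF p D) (M := ZMod p)).comp
    (algebraMap L (RF p D))) (AddMonoidAlgebra.single (-(r : ZMod p)) (XF p D)))
    (AddMonoidAlgebra.single (1 : ZMod p) (YF p D)) (by
      rw [eval₂_fF, map_sub, map_pow, sub_eq_zero]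
      have h1 : (eval₂RingHom ((AddMonoidAlgebra.singleZeroRingHom (R := RF p D) (M := ZMod p)).comp
          (algebraMap L (RF p D))) (AddMonoidAlgebra.single (-(r : ZMod p)) (XF p D))) X =
          AddMonoidAlgebra.single (-(r : ZMod p)) (XF p D) := by
        rw [coe_eval₂RingHom, eval₂_X]
      have h2 : (eval₂RingHom ((AddMonoidAlgebra.singleZeroRingHom (R := RF p D) (M := ZMod p)).comp
          (algebraMap L (RF p D))) (AddMonoidAlgebra.single (-(r : ZMod p)) (XF p D))) (C D) =
          AddMonoidAlgebra.single (0 : ZMod p) (algebraMap L (RF p D) D) := by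
        rw [coe_eval₂RingHom, eval₂_C]
        rfl
      rw [h1, h2, AddMonoidAlgebra.single_pow, AddMonoidAlgebra.single_pow, nsmul_eq_mul, nsmul_eq_mul,
        ZMod.natCast_self, zero_mul, zero_mul, YF_pow, AddMonoidAlgebra.single_sub])

/-- the coaction on a constant -/
lemma dl_alg (c : L) : dl p r D (algebraMap L (RF p D) c) = AddMonoidAlgebra.single (0 : ZMod p) (algebraMap L (RF p D) c) := by
  have h : algebraMap L (RF p D) c = AdjoinRoot.of (fF p D) (C c) := rfl
  rw [h]
  unfold dl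
  rw [AdjoinRoot.lift_of, coe_eval₂RingHom, eval₂_C]
  rfl

lemma dl_X : dl p r D (XF p D) = AddMonoidAlgebra.single (-(r : ZMod p)) (XF p D) := by
  have h : XF p D = AdjoinRoot.of (fF p D) X := rfl
  conv_lhs => rw [h]
  unfold dl
  rw [AdjoinRoot.lift_of, coe_eval₂RingHom, eval₂_X]

lemma dl_Y : dl p r D (YF p D) = AddMonoidAlgebra.single (1 : ZMod p) (YF p D) := by
  have h : YF p D = AdjoinRoot.root (fF p D) := rfl
  conv_lhs => rw [h]
  unfold dl
  rw [AdjoinRoot.lift_root]

lemma dl_mon (a b : ℕ) : dl p r D (XF p D ^ a * YF p D ^ b) =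
    AddMonoidAlgebra.single ((b : ZMod p) - r * a) (XF p D ^ a * YF p D ^ b) := by
  rw [map_mul, map_pow, map_pow, dl_X, dl_Y, AddMonoidAlgebra.single_pow, AddMonoidAlgebra.single_pow,
    AddMonoidAlgebra.single_mul_single, nsmul_eq_mul, nsmul_eq_mul]
  congr 1
  ring

lemma dl_BQ (z : RF p D) (hz : z ∈ BQ p r D) : dl p r D z = AddMonoidAlgebra.single (0 : ZMod p) z := by
  unfold BQ at hz
  induction hz using Algebra.adjoin_induction with
  | mem x hx =>
    obtain ⟨a, b, hab, rfl⟩ := hx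
    have h1 : (b : ZMod p) - r * a = 0 := by
      rw [sub_eq_zero]
      exact_mod_cast (ZMod.natCast_eq_natCast_iff b (r * a) p).2 hab
    rw [dl_mon, h1]
  | algebraMap c => exact dl_alg p r D c
  | add x y _ _ hx hy => rw [map_add, hx, hy, AddMonoidAlgebra.single_add]
  | mul x y _ _ hx hy => rw [map_mul, hx, hy, AddMonoidAlgebra.single_mul_single, add_zero]

/-- the invariant part -/
noncomputable def rho (z : RF p D) : RF p D := (dl p r D z).coeff 0

lemma rho_add (x y : RF p D) : rho p r D (x + y) = rho p r D x + rho p r D y := by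
  unfold rho
  rw [map_add, AddMonoidAlgebra.coeff_add, Finsupp.add_apply]

lemma rho_mul (m z : RF p D) (hm : m ∈ BQ p r D) : rho p r D (m * z) = m * rho p r D z := by
  unfold rho
  rw [map_mul, dl_BQ p r D m hm, AddMonoidAlgebra.coeff_single_zero_mul]

lemma rho_self (z : RF p D) (hz : z ∈ BQ p r D) : rho p r D z = z := by
  unfold rho
  rw [dl_BQ p r D z hz, AddMonoidAlgebra.coeff_single, Finsupp.single_eq_same]

lemma rho_mon (a b : ℕ) : rho p r D (XF p D ^ a * YF p D ^ b) ∈ BQ p r D := by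
  unfold rho
  rw [dl_mon, AddMonoidAlgebra.coeff_single, Finsupp.single_apply]
  split_ifs with h
  · apply mons_mem
    rw [sub_eq_zero] at h
    exact (ZMod.natCast_eq_natCast_iff b (r * a) p).1 (by exact_mod_cast h)
  · exact (BQ p r D).zero_mem

/-- the monomials span the coordinate ring -/
lemma ind_mon {P : RF p D → Prop} (hadd : ∀ x y, P x → P y → P (x + y))
    (hmon : ∀ (c : L) (a b : ℕ), P (algebraMap L (RF p D) c * (XF p D ^ a * YF p D ^ b))) (z : RF p D) : P z := by
  obtain ⟨g, rfl⟩ := AdjoinRoot.mk_surjective z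
  induction g using Polynomial.induction_on' with
  | add f g hf hg =>
    rw [map_add]
    exact hadd _ _ hf hg
  | monomial b h =>
    rw [← C_mul_X_pow_eq_monomial, map_mul (AdjoinRoot.mk (fF p D)), map_pow (AdjoinRoot.mk (fF p D)),
      AdjoinRoot.mk_X, AdjoinRoot.mk_C]
    induction h using Polynomial.induction_on' with
    | add f g hf hg =>
      rw [map_add, add_mul]
      exact hadd _ _ hf hg
    | monomial a c =>
      rw [← C_mul_X_pow_eq_monomial, map_mul (AdjoinRoot.of (fF p D)), map_pow (AdjoinRoot.of (fF p D)), mul_assoc]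
      exact hmon c a b

lemma rho_mem (z : RF p D) : rho p r D z ∈ BQ p r D := by
  refine ind_mon p D (P := fun z => rho p r D z ∈ BQ p r D) (fun x y hx hy => ?_) (fun c a b => ?_) z
  · rw [rho_add]
    exact (BQ p r D).add_mem hx hy
  · rw [rho_mul p r D _ _ ((BQ p r D).algebraMap_mem c)]
    exact (BQ p r D).mul_mem ((BQ p r D).algebraMap_mem c) (rho_mon p r D a b)

lemma partC : ∃ ρ : RF p D →ₗ[BQ p r D] BQ p r D, ∀ z : BQ p r D, ρ (z : RF p D) = z :=
  ⟨{ toFun := fun z => ⟨rho p r D z, rho_mem p r D z⟩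
     map_add' := fun x y => Subtype.ext (rho_add p r D x y)
     map_smul' := fun m z => Subtype.ext (rho_mul p r D m.1 z m.2) }, fun z => Subtype.ext (rho_self p r D z.1 z.2)⟩

/-! ## The two points -/

lemma span_X_ne : (1 : RF p D) ∉ Ideal.span {XF p D} := by
  intro h
  rw [Ideal.mem_span_singleton] at h
  obtain ⟨g, hg⟩ := h
  have hnt : Nontrivial (AdjoinRoot (X ^ p - C D : L[X])) := AdjoinRoot.nontrivial _ (by
    rw [degree_X_pow_sub_C hp.out.pos]
    exact_mod_cast hp.out.pos.ne')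
  obtain ⟨φ, hφ⟩ : ∃ φ : RF p D →+* AdjoinRoot (X ^ p - C D : L[X]), φ (XF p D) = 0 := by
    refine ⟨AdjoinRoot.lift (eval₂RingHom (AdjoinRoot.of (X ^ p - C D : L[X])) 0)
      (AdjoinRoot.root (X ^ p - C D : L[X])) ?_, ?_⟩
    · rw [eval₂_fF, map_sub, map_pow]
      have h1 : (eval₂RingHom (AdjoinRoot.of (X ^ p - C D : L[X])) 0) X = 0 := by
        rw [coe_eval₂RingHom, eval₂_X]
      have h2 : (eval₂RingHom (AdjoinRoot.of (X ^ p - C D : L[X])) 0) (C D) = AdjoinRoot.of (X ^ p - C D : L[X]) D := by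
        rw [coe_eval₂RingHom, eval₂_C]
      rw [h1, h2, zero_pow hp.out.ne_zero, sub_zero]
      have h3 := AdjoinRoot.eval₂_root (X ^ p - C D : L[X])
      rw [eval₂_sub, eval₂_X_pow, eval₂_C] at h3
      exact h3
    · have h : XF p D = AdjoinRoot.of (fF p D) X := rfl
      rw [h, AdjoinRoot.lift_of, coe_eval₂RingHom, eval₂_X]
  have h1 := congrArg φ hg
  rw [map_one, map_mul, hφ, zero_mul] at h1
  exact one_ne_zero h1

lemma span_Y_ne : (1 : RF p D) ∉ Ideal.span {YF p D} := by
  intro h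
  rw [Ideal.mem_span_singleton] at h
  obtain ⟨g, hg⟩ := h
  have hnt : Nontrivial (AdjoinRoot (X ^ p - C D : L[X])) := AdjoinRoot.nontrivial _ (by
    rw [degree_X_pow_sub_C hp.out.pos]
    exact_mod_cast hp.out.pos.ne')
  obtain ⟨φ, hφ⟩ : ∃ φ : RF p D →+* AdjoinRoot (X ^ p - C D : L[X]), φ (YF p D) = 0 := by
    refine ⟨AdjoinRoot.lift (AdjoinRoot.mk (X ^ p - C D : L[X])) 0 ?_, ?_⟩
    · rw [eval₂_fF, zero_pow hp.out.ne_zero, zero_sub, neg_eq_zero, ← neg_eq_zero, ← map_neg, neg_sub,
        AdjoinRoot.mk_self]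
    · have h : YF p D = AdjoinRoot.root (fF p D) := rfl
      rw [h, AdjoinRoot.lift_root]
  have h1 := congrArg φ hg
  rw [map_one, map_mul, hφ, zero_mul] at h1
  exact one_ne_zero h1

omit ho in
lemma mem_t1 (z : BQ p r D) : z ∈ t1 p r D ↔ XF p D ∣ (z : RF p D) := by
  unfold t1
  rw [Ideal.mem_comap, Ideal.mem_span_singleton]
  rfl

omit ho in
lemma mem_t2 (z : BQ p r D) : z ∈ t2 p r D ↔ YF p D ∣ (z : RF p D) := by
  unfold t2
  rw [Ideal.mem_comap, Ideal.mem_span_singleton]
  rfl

lemma partD : ∃ e : BQ p r D →ₐ[L] L, RingHom.ker e = t1 p r D ∧ e (uu p r D) = 0 ∧ e (ww p r D) = D ∧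
    e (vv p r D) = 0 := by
  obtain ⟨e, he1, he2⟩ := point (L := L) (t1 p r D) (by
    rw [Ne, Ideal.eq_top_iff_one, mem_t1]
    intro h
    exact span_X_ne p D (Ideal.mem_span_singleton.2 h)) (by
    intro z
    have h : ∀ x ∈ Submodule.span L (mons p r D), ∃ c : L, XF p D ∣ x - algebraMap L (RF p D) c := by
      intro x hx
      induction hx using Submodule.span_induction with
      | mem x hx =>
        obtain ⟨a, b, hab, rfl⟩ := hx
        rcases Nat.eq_zero_or_pos a with ha | ha
        · subst ha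
          rw [mul_zero] at hab
          obtain ⟨l, rfl⟩ : p ∣ b := (Nat.modEq_zero_iff_dvd).1 hab
          refine ⟨D ^ l, ?_⟩
          rw [pow_zero, one_mul, pow_mul, YF_pow, map_pow]
          refine dvd_trans ?_ (sub_dvd_pow_sub_pow _ _ l)
          rw [sub_sub_cancel_left, dvd_neg]
          exact dvd_pow_self _ hp.out.ne_zero
        · refine ⟨0, ?_⟩
          rw [map_zero, sub_zero]
          exact Dvd.dvd.mul_right (dvd_pow_self _ ha.ne') _
      | zero => exact ⟨0, by rw [map_zero, sub_zero]; exact dvd_zero _⟩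
      | add x y _ _ hx hy =>
        obtain ⟨c, hc⟩ := hx
        obtain ⟨d, hd⟩ := hy
        refine ⟨c + d, ?_⟩
        have h1 : x + y - algebraMap L (RF p D) (c + d) =
            (x - algebraMap L (RF p D) c) + (y - algebraMap L (RF p D) d) := by
          rw [map_add]
          ring
        rw [h1]
        exact dvd_add hc hd
      | smul a x _ hx =>
        obtain ⟨c, hc⟩ := hx
        refine ⟨a * c, ?_⟩
        have h1 : a • x - algebraMap L (RF p D) (a * c) = algebraMap L (RF p D) a * (x - algebraMap L (RF p D) c) := by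
          rw [map_mul, Algebra.smul_def]
          ring
        rw [h1]
        exact Dvd.dvd.mul_left hc _
    obtain ⟨c, hc⟩ := h z.1 (mem_span p r D z.1 z.2)
    exact ⟨c, (mem_t1 p r D _).2 hc⟩)
  refine ⟨e, he1, he2 _ _ ?_, he2 _ _ ?_, he2 _ _ ?_⟩
  · rw [map_zero, sub_zero, mem_t1]
    exact dvd_pow_self _ hp.out.ne_zero
  · rw [← uu_add_ww p r D, sub_add_cancel_right, mem_t1]
    change XF p D ∣ -(XF p D ^ p)
    rw [dvd_neg]
    exact dvd_pow_self _ hp.out.ne_zero
  · rw [map_zero, sub_zero, mem_t1]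
    exact dvd_mul_right _ _

lemma partE : ∃ e : BQ p r D →ₐ[L] L, RingHom.ker e = t2 p r D ∧ e (uu p r D) = D ∧ e (ww p r D) = 0 ∧
    e (vv p r D) = 0 := by
  obtain ⟨e, he1, he2⟩ := point (L := L) (t2 p r D) (by
    rw [Ne, Ideal.eq_top_iff_one, mem_t2]
    intro h
    exact span_Y_ne p D (Ideal.mem_span_singleton.2 h)) (by
    intro z
    have h : ∀ x ∈ Submodule.span L (mons p r D), ∃ c : L, YF p D ∣ x - algebraMap L (RF p D) c := by
      intro x hx
      induction hx using Submodule.span_induction with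
      | mem x hx =>
        obtain ⟨a, b, hab, rfl⟩ := hx
        rcases Nat.eq_zero_or_pos b with hb | hb
        · subst hb
          have h1 : p ∣ r * a := (Nat.modEq_zero_iff_dvd).1 hab.symm
          obtain ⟨k, rfl⟩ : p ∣ a := Nat.Coprime.dvd_of_dvd_mul_left (Nat.coprime_comm.1 (coprime_r p r)) h1
          refine ⟨D ^ k, ?_⟩
          have h2 : XF p D ^ p = algebraMap L (RF p D) D - YF p D ^ p := by
            rw [← fermat_eq p D]
            ring
          rw [pow_zero, mul_one, pow_mul, h2, map_pow]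
          refine dvd_trans ?_ (sub_dvd_pow_sub_pow _ _ k)
          rw [sub_sub_cancel_left, dvd_neg]
          exact dvd_pow_self _ hp.out.ne_zero
        · refine ⟨0, ?_⟩
          rw [map_zero, sub_zero]
          exact Dvd.dvd.mul_left (dvd_pow_self _ hb.ne') _
      | zero => exact ⟨0, by rw [map_zero, sub_zero]; exact dvd_zero _⟩
      | add x y _ _ hx hy =>
        obtain ⟨c, hc⟩ := hx
        obtain ⟨d, hd⟩ := hy
        refine ⟨c + d, ?_⟩
        have h1 : x + y - algebraMap L (RF p D) (c + d) =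
            (x - algebraMap L (RF p D) c) + (y - algebraMap L (RF p D) d) := by
          rw [map_add]
          ring
        rw [h1]
        exact dvd_add hc hd
      | smul a x _ hx =>
        obtain ⟨c, hc⟩ := hx
        refine ⟨a * c, ?_⟩
        have h1 : a • x - algebraMap L (RF p D) (a * c) = algebraMap L (RF p D) a * (x - algebraMap L (RF p D) c) := by
          rw [map_mul, Algebra.smul_def]
          ring
        rw [h1]
        exact Dvd.dvd.mul_left hc _
    obtain ⟨c, hc⟩ := h z.1 (mem_span p r D z.1 z.2)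
    exact ⟨c, (mem_t2 p r D _).2 hc⟩)
  refine ⟨e, he1, he2 _ _ ?_, he2 _ _ ?_, he2 _ _ ?_⟩
  · rw [← uu_add_ww p r D, sub_add_cancel_left, mem_t2]
    change YF p D ∣ -(YF p D ^ p)
    rw [dvd_neg]
    exact dvd_pow_self _ hp.out.ne_zero
  · rw [map_zero, sub_zero, mem_t2]
    exact dvd_pow_self _ hp.out.ne_zero
  · rw [map_zero, sub_zero, mem_t2]
    have h1 : 1 ≤ r := ho.h1
    exact Dvd.dvd.mul_left (dvd_pow_self _ (by omega)) _

end

/-- **Job BSC.** -/
theorem bsc : S_BSC := by
  intro p r _ _ L _ D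
  refine ⟨fun a b h => ⟨a % p, a / p, b / p, Nat.mod_lt _ (Fact.out (p := p.Prime)).pos, partA p r D a b h⟩,
    fun z => partB p r D z, partC p r D, partD p r D, partE p r D⟩

end Pool.Agent.Q182.CF
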